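import Pool.Agent.Helper56.Un.E8Stmts

set_option autoImplicit false

/-!
# Assembly of the `E₈` certificate
-/

namespace Pool.Agent.Helper19.Un

open MeasureTheory Topology
open scoped ComplexConjugate

/-- `Gam M` permutes the cusp vectors -/
noncomputable def ewts_equiv {m : ℕ} {M : AddSubgroup (V m)} {γ : V m ≃ₗ[ℂ] V m} (hγ : γ ∈ Gam M) :
    Orb M ≃ Orb M where
  toFun w := ⟨γ⁻¹ w, Orb_smul ((Gam M).inv_mem hγ) w.2⟩
  invFun w := ⟨γ w, Orb_smul hγ w.2⟩
  left_inv w := Subtype.ext (γ.apply_symm_apply w.1)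
  right_inv w := Subtype.ext (γ.symm_apply_apply w.1)

theorem ewts_tsum {m : ℕ} {M : AddSubgroup (V m)} {γ : V m ≃ₗ[ℂ] V m} (hγ : γ ∈ Gam M) {p : Pt m}
    (hp : p ∈ SD m) (f : ℝ → ENNReal) :
    ∑' w : Orb M, f (uval w p) = ∑' w : Orb M, f (uval w (act γ p)) := by
  rw [← (ewts_equiv hγ).tsum_eq (fun w : Orb M => f (uval w p))]
  refine tsum_congr fun w => ?_
  rw [uval_act hγ.1 w hp]
  rfl

theorem st_EWTS (h1 : ST_ERED) (h2 : ST_EUP) (h3 : ST_ELOW) : ST_EWTS := by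
  refine ⟨fun p hp => ?_, ?_⟩
  · obtain ⟨γ, hγ, _, h⟩ := h1 p hp
    exact ⟨γ, hγ, h⟩
  · refine ⟨?_, fun r => ?_, by norm_num, fun p hp => ?_, ?_⟩
    · unfold psE8 wt
      fun_prop
    · unfold psE8 wt
      positivity
    · obtain ⟨γ, hγ, hw, h⟩ := h1 p hp
      rw [ewts_tsum hγ hp (fun t => ENNReal.ofReal (psE8 (1 / t)))]
      exact h2 (act γ p) (act_mem hγ.1 hp) h.2.2 hw
    · have hS : MeasurableSet (SD 4) := by
        have : Continuous (fun p : Pt 4 => hgt p) := by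
          unfold hgt
          fun_prop
        exact (isOpen_lt continuous_const this).measurableSet
      have hae : ∀ᵐ p ∂(hyp 4), p ∈ SD 4 := by
        unfold hyp
        exact (withDensity_absolutelyContinuous _ _).ae_le (ae_restrict_mem hS)
      filter_upwards [hae] with p hp
      obtain ⟨γ, hγ, hw, h⟩ := h1 p hp
      rw [ewts_tsum hγ hp
        (fun t => ENNReal.ofReal (muP 4 (4 / 3) (Real.sqrt 3) (1 / t) * psE8 (1 / t)))]
      exact h3 (act γ p) (act_mem hγ.1 hp) h.2.2 hw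

end Pool.Agent.Helper19.Un

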